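import Mathlib
import Pool.Agent.Y593.LG.PA

/-!
# Consequences of the Reeb condition for the scale invariant forms on `ℝⁿ ∖ 0`, `n` even
-/

set_option autoImplicit false

open scoped ContDiff

namespace Pool.Agent.Y74.HGE

open Pool.Agent.H660R3 Real Pool.Agent.Y593.LG

variable {n : ℕ}

theorem n2_pos' {y : EE n} (h : y ≠ 0) : 0 < n2 y := by
  have hex : ∃ i, y i ≠ 0 := by
    by_contra hn
    push Not at hn
    apply h
    ext i
    exact hn i
  obtain ⟨i, hi⟩ := hex
  refine Finset.sum_pos' (fun j _ => sq_nonneg _) ⟨i, Finset.mem_univ _, ?_⟩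
  positivity

/-- the sum of the squares divided by `|y|²` -/
theorem sum_sq {y : EE n} (h : y ≠ 0) : ∑ i : Fin n, y i ^ 2 / n2 y = 1 := by
  have hN := (n2_pos' h).ne'
  rw [← Finset.sum_div, div_eq_one_iff_eq hN, n2]

/-- the part of `dW` with the factors `1 - ee` -/
theorem part2 {y : EE n} (h : y ≠ 0) (c : ℝ) :
    ∑ i : Fin n, y i ^ 2 / n2 y * ((1 - ee n (th y - (i : ℕ) / n)) * c) =
      c * (1 - ∑ i : Fin n, tm i y) := by
  rw [← sum_sq h, ← Finset.sum_sub_distrib, Finset.mul_sum]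
  refine Finset.sum_congr rfl fun i _ => ?_
  rw [tm]
  ring

theorem jp_anti (S : CS n) (y u : EE n) : jp S u y = - jp S y u := by
  rw [jp, jp, ← Finset.sum_neg_distrib]
  rw [← Equiv.sum_comp (Function.Involutive.toPerm S.σ S.inv)
    (fun i => S.s i * u i * y (S.σ i))]
  refine Finset.sum_congr rfl fun i _ => ?_
  simp only [Function.Involutive.coe_toPerm, S.inv, S.neg]
  ring

theorem jp_self (S : CS n) (y : EE n) : jp S y y = 0 := by
  have := jp_anti S y y
  linarith

theorem reeb_sum (S : CS n) {ε : ℝ} (hε : 0 < ε) {y : EE n} (hy : y ≠ 0) (u : EE n)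
    (hu : 0 < jp S y u)
    (h : ∀ v, ε * (dW y u * (jp S y v / n2 y) - dW y v * (jp S y u / n2 y)) + d0 S y u v = 0) :
    ∑ i : Fin n, tm i y = 1 := by
  have hN := n2_pos' hy
  have hN0 := hN.ne'
  have hl : (0 : ℝ) < Real.log 2 := Real.log_pos one_lt_two
  have h1 := h y
  have e1 : jp S y y = 0 := jp_self S y
  have e2 : jp S u y = - jp S y u := jp_anti S y u
  have e3 : ip y y = n2 y := by
    rw [ip, n2]
    exact Finset.sum_congr rfl fun i _ => by ring
  have e4 : d0 S y u y = 0 := by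
    rw [d0, e1, e2, e3]
    field_simp
    ring
  rw [e1, e4] at h1
  have h2 : dW y y = 0 := by
    have h3 : ε * (jp S y u / n2 y) * dW y y = 0 := by linear_combination -h1
    rcases mul_eq_zero.1 h3 with h4 | h4
    · exact absurd h4 (mul_pos hε (div_pos hu hN)).ne'
    · exact h4
  have h5 : dW y y = 1 / Real.log 2 * (1 - ∑ i : Fin n, tm i y) := by
    rw [← part2 hy, dW]
    refine Finset.sum_congr rfl fun i _ => ?_
    rw [e3]
    field_simp
    ring
  rw [h5] at h2
  rcases mul_eq_zero.1 h2 with h4 | h4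
  · exact absurd h4 (one_div_pos.2 hl).ne'
  · linarith

theorem sig_ne (S : CS n) (i : Fin n) : i ≠ S.σ i := by
  intro h
  have h1 := S.neg i
  rw [← h] at h1
  have h2 := S.sq i
  have h3 : S.s i = 0 := by linarith
  rw [h3] at h2
  norm_num at h2

theorem reeb_turn (S : CS n) {ε : ℝ} (hε : 0 < ε) (hεK : 100 * ε < 1)
    {y : EE n} (hy : y ≠ 0) (u : EE n) (hu : 0 < jp S y u)
    (h : ∀ v, ε * (dW y u * (jp S y v / n2 y) - dW y v * (jp S y u / n2 y)) + d0 S y u v = 0)
    (i : Fin n) (hi : tm i y = 1) :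
    0 < S.s i * (y i * u (S.σ i) - y (S.σ i) * u i) := by
  have hyi : y i ≠ 0 := by
    intro h0
    rw [tm, h0] at hi
    norm_num at hi
  have hpos : 0 < y i ^ 2 := by positivity
  have hsum := reeb_sum S hε hy u hu h
  have hN := n2_pos' hy
  have hN0 := hN.ne'
  have hne := sig_ne S i
  set r := y i ^ 2 + y (S.σ i) ^ 2 with hrd
  have hr : 0 < r := by
    have := sq_nonneg (y (S.σ i))
    linarith
  set T := S.s i * (y i * u (S.σ i) - y (S.σ i) * u i) with hT
  let v : EE n := WithLp.toLp 2 (fun j => if j = i ∨ j = S.σ i then y j else 0)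
  have vj : ∀ j, v j = if j = i ∨ j = S.σ i then y j else 0 := fun j => rfl
  have v0 : v i = y i := by rw [vj]; simp
  have v1 : v (S.σ i) = y (S.σ i) := by rw [vj]; simp
  have v2 : ∀ j, j ≠ i ∧ j ≠ S.σ i → v j = 0 := by
    intro j hj
    rw [vj, if_neg]
    rintro (h | h)
    · exact hj.1 h
    · exact hj.2 h
  have v3 : ∀ j, j ≠ i ∧ j ≠ S.σ i → v (S.σ j) = 0 := by
    intro j hj
    refine v2 _ ⟨fun h => hj.2 ?_, fun h => hj.1 ?_⟩
    · rw [← h, S.inv]
    · rw [← S.inv j, h, S.inv]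
  have h1 := h v
  have e1 : jp S y v = 0 := by
    rw [jp, Fintype.sum_eq_add i (S.σ i) hne (fun j hj => by rw [v3 j hj, mul_zero]), S.inv, v0, v1,
      S.neg]
    ring
  have e2 : jp S u v = - T := by
    rw [jp, Fintype.sum_eq_add i (S.σ i) hne (fun j hj => by rw [v3 j hj, mul_zero]), S.inv, v0, v1,
      S.neg, hT]
    ring
  have e3 : ip y v = r := by
    rw [ip, Fintype.sum_eq_add i (S.σ i) hne (fun j hj => by rw [v2 j hj, mul_zero]), v0, v1, hrd]
    ring
  rw [d0, e1, e2, e3] at h1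
  have hdW : dW y v = ∑ j : Fin n, (2 * y j * v j / n2 y - 2 * y j ^ 2 * r / n2 y ^ 2) *
      hs n (th y - (j : ℕ) / n) := by
    rw [dW, e3, Finset.sum_add_distrib, part2 hy, hsum, sub_self, mul_zero, add_zero]
  have hq : ∀ j : Fin n, 0 ≤ 2 * y j * v j / n2 y := by
    intro j
    refine div_nonneg ?_ hN.le
    rw [vj]
    split_ifs
    · nlinarith [sq_nonneg (y j)]
    · simp
  have hq2 : ∀ j : Fin n, 0 ≤ 2 * y j ^ 2 * r / n2 y ^ 2 := fun j =>
    div_nonneg (mul_nonneg (mul_nonneg two_pos.le (sq_nonneg _)) hr.le) (sq_nonneg _)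
  have s1 : ∑ j, 2 * y j * v j / n2 y = 2 / n2 y * r := by
    rw [← e3, ip, Finset.mul_sum]
    exact Finset.sum_congr rfl fun j _ => by ring
  have s2 : ∀ c : ℝ, ∑ j, 2 * y j ^ 2 * r / c ^ 2 = 2 * r / c ^ 2 * n2 y := by
    intro c
    rw [n2, Finset.mul_sum]
    exact Finset.sum_congr rfl fun j _ => by ring
  have hb1 : |dW y v| ≤ 4 * r / n2 y := by
    rw [hdW]
    refine (Finset.abs_sum_le_sum_abs _ _).trans ?_
    have h3 : ∀ j ∈ (Finset.univ : Finset (Fin n)),
        |(2 * y j * v j / n2 y - 2 * y j ^ 2 * r / n2 y ^ 2) * hs n (th y - (j : ℕ) / n)| ≤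
          2 * y j * v j / n2 y + 2 * y j ^ 2 * r / n2 y ^ 2 := by
      intro j _
      rw [abs_mul]
      have h4 : |2 * y j * v j / n2 y - 2 * y j ^ 2 * r / n2 y ^ 2| ≤
          2 * y j * v j / n2 y + 2 * y j ^ 2 * r / n2 y ^ 2 :=
        abs_le.2 ⟨by linarith [hq j, hq2 j], by linarith [hq j, hq2 j]⟩
      calc _ ≤ |2 * y j * v j / n2 y - 2 * y j ^ 2 * r / n2 y ^ 2| * 1 :=
            mul_le_mul_of_nonneg_left (A.hs_bound _ _) (abs_nonneg _)
        _ ≤ _ := by rw [mul_one]; exact h4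
    refine (Finset.sum_le_sum h3).trans (le_of_eq ?_)
    rw [Finset.sum_add_distrib, s1, s2]
    field_simp
    ring
  have hT2 : T = jp S y u * (r / n2 y - ε / 2 * dW y v) := by
    field_simp at h1 ⊢
    linarith
  have h6 := abs_le.1 hb1
  have h7 : 0 < r / n2 y := div_pos hr hN
  have h8 : 4 * r / n2 y = 4 * (r / n2 y) := by ring
  rw [h8] at h6
  rw [hT2]
  refine mul_pos hu ?_
  nlinarith [h6.2, h6.1]

end Pool.Agent.Y74.HGE
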